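import Pool.Agent.STK.Ind
import Pool.Agent.STK.Kahler
import Pool.Agent.STK.Chu

set_option autoImplicit false

/-!
# MP_e0fc50_gt (Streets-Tian): invariant complex structures on compact quotients of Lie groups

Every finite-dimensional real unimodular Lie algebra with an integrable complex structure
`J` and a closed 2-form taming `J` has a closed `J`-invariant 2-form which is positive on
`(x, J x)`, that is, an invariant Kähler structure for the same `J`.
(Authors: helper77 and helper71.)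
-/

namespace Pool.Agent.Results.MP_e0fc50_gt.UnimodularLie

theorem result {L : Type*} [LieRing L] [LieAlgebra ℝ L] [FiniteDimensional ℝ L]
    (hunim : ∀ x : L, LinearMap.trace ℝ L (LieAlgebra.ad ℝ L x) = 0)
    (J : L →ₗ[ℝ] L) (hJ : ∀ x, J (J x) = -x)
    (hint : ∀ x y, ⁅J x, J y⁆ - J ⁅J x, y⁆ - J ⁅x, J y⁆ - ⁅x, y⁆ = 0)
    (Ω : L →ₗ[ℝ] L →ₗ[ℝ] ℝ) (halt : ∀ x, Ω x x = 0)
    (hclosed : ∀ x y z, Ω ⁅x, y⁆ z + Ω ⁅y, z⁆ x + Ω ⁅z, x⁆ y = 0)
    (htame : ∀ x, x ≠ 0 → 0 < Ω x (J x)) :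
    ∃ ω : L →ₗ[ℝ] L →ₗ[ℝ] ℝ, (∀ x, ω x x = 0) ∧
      (∀ x y z, ω ⁅x, y⁆ z + ω ⁅y, z⁆ x + ω ⁅z, x⁆ y = 0) ∧
      (∀ x y, ω (J x) (J y) = ω x y) ∧ (∀ x, x ≠ 0 → 0 < ω x (J x)) := by
  have T : Pool.Agent.STK.Tame J Ω :=
    { jj := hJ
      int := fun x y => by
        have h1 := hint x y
        rw [sub_sub, sub_sub, sub_eq_zero] at h1
        rw [h1]
        abel
      alt := halt
      closed := hclosed
      tame := htame }
  have hsol : LieAlgebra.IsSolvable L :=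
    Pool.Agent.STK.solvable_of_symplectic Ω halt hclosed T.inj hunim
  exact Pool.Agent.STK.kahler_of_abelian T hunim (Pool.Agent.STK.derived_abelian T hunim)

end Pool.Agent.Results.MP_e0fc50_gt.UnimodularLie
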